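import Pool.Agent.H10Wsc.CH
import Pool.Agent.H10Wsc.Pos

/-!
# Q1 is decided differently by the continuum hypothesis and by `𝔥 = 𝔠 > ℵ₁`
-/

set_option autoImplicit false

namespace Pool.Agent.Results.MP_33144e_an.Independence

open MeasureTheory Cardinal Pool.Agent.LpSeq
open scoped ENNReal

/-- (1) Under the continuum hypothesis there are a probability space and a Banach space `X` with
weak* sequentially compact dual ball such that the dual ball of `L^p(μ, X)` is not weak*
sequentially compact for any `1 ≤ p ≤ ∞`.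
(2) If the distributivity number `𝔥` is the continuum and is larger than `ℵ₁` then the dual ball of
`L^p(μ, X)` is weak* sequentially compact for every probability measure `μ`, every `1 ≤ p < ∞` and
every Banach space `X` with weak* sequentially compact dual ball. -/
theorem result.{u, v} :
    ((𝔠 : Cardinal.{0}) = ℵ₁ →
      ∃ (Ω : Type) (_ : MeasurableSpace Ω) (μ : Measure Ω) (_ : IsProbabilityMeasure μ)
        (X : Type) (_ : NormedAddCommGroup X) (_ : NormedSpace ℝ X) (_ : CompleteSpace X),
        WStarSeqCompact X ∧ ∀ (p : ℝ≥0∞) [Fact (1 ≤ p)], ¬ WStarSeqCompact (Lp X p μ)) ∧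
    (distributivityNumber = 𝔠 → ℵ₁ < (𝔠 : Cardinal.{0}) →
      ∀ (Ω : Type u) [MeasurableSpace Ω] (μ : Measure Ω) [IsProbabilityMeasure μ]
        (X : Type v) [NormedAddCommGroup X] [NormedSpace ℝ X] [CompleteSpace X]
        (p : ℝ≥0∞) [Fact (1 ≤ p)], p ≠ ⊤ → WStarSeqCompact X → WStarSeqCompact (Lp X p μ)) :=
  ⟨Pool.Agent.H10Wsc.ch_counterexample, fun h1 h2 _ _ _ _ _ _ _ _ _ _ hp hX =>
    Pool.Agent.H10Wsc.wstar_of_distributivity h1 (h2.trans_eq h1.symm) hp hX⟩

end Pool.Agent.Results.MP_33144e_an.Independence
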