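import Pool.Agent.LpSeq.Final

/-!
Weak* sequential compactness of the dual ball of `L^p(μ, X)` for every `μ`, when the density
character of `X` is less than the splitting number.
-/

namespace Pool.Agent.Results.MP_33144e_an.SmallDensity

open MeasureTheory Filter Topology Cardinal Pool.Agent.LpSeq
open scoped ENNReal

/-- If the Banach space `X` has a dense set with fewer than `𝔰` elements, then the dual ball of
`L^p(μ, X)` is weak* sequentially compact for every probability measure `μ` (of any Maharam type)
and every `1 ≤ p < ∞`. -/
theorem result (X : Type) [NormedAddCommGroup X] [NormedSpace ℝ X] [CompleteSpace X]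
    (T : Set X) (hT : Dense T) (hcard : #T < splittingNumber)
    (Ω : Type) [MeasurableSpace Ω] (μ : Measure Ω) [IsProbabilityMeasure μ]
    (p : ℝ≥0∞) [Fact (1 ≤ p)] (hp : p ≠ ⊤) :
    WStarSeqCompact (Lp X p μ) :=
  split_main hp T hT hcard

end Pool.Agent.Results.MP_33144e_an.SmallDensity
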