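import Pool.Agent.LpSeq.Final

/-!
Weak* sequential compactness of the dual ball of `L^p(μ, X)` for every `μ`, when the regular
measures on the dual ball of `X` have Maharam type less than the distributivity number.
-/

namespace Pool.Agent.Results.MP_33144e_an.SmallTypeDualBall

open MeasureTheory Filter Topology Cardinal Pool.Agent.LpSeq
open scoped ENNReal

/-- Let `κ < 𝔥` and let `X` be a Banach space with weak* sequentially compact dual ball such that
`L^1(ρ)` has a dense set of at most `κ` elements for every finite regular Borel measure `ρ` on the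
dual ball with its weak* topology.  Then the dual ball of `L^p(μ, X)` is weak* sequentially
compact for every probability measure `μ` and every `1 ≤ p < ∞`. -/
theorem result (X : Type) [NormedAddCommGroup X] [NormedSpace ℝ X] [CompleteSpace X]
    (κ : Cardinal.{0}) (hκ : κ < distributivityNumber)
    (hM : ∀ (mB : MeasurableSpace (DualBall X)), BorelSpace (DualBall X) →
      ∀ ρ : Measure (DualBall X), IsFiniteMeasure ρ → ρ.Regular →
        ∃ S : Set (Lp ℝ 1 ρ), Dense S ∧ #S ≤ κ)
    (hX : WStarSeqCompact X)
    (Ω : Type) [MeasurableSpace Ω] (μ : Measure Ω) [IsProbabilityMeasure μ]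
    (p : ℝ≥0∞) [Fact (1 ≤ p)] (hp : p ≠ ⊤) :
    WStarSeqCompact (Lp X p μ) :=
  type_main hp κ hκ hM hX

end Pool.Agent.Results.MP_33144e_an.SmallTypeDualBall
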