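import Pool.Agent.LpSeq.Final

/-!
Weak* sequential compactness of the dual ball of `L^p(μ, X)` for measures `μ` whose space `L^1(μ)`
has density character less than the distributivity number.
-/

namespace Pool.Agent.Results.MP_33144e_an.SmallTypeMeasure

open MeasureTheory Filter Topology Cardinal Pool.Agent.LpSeq
open scoped ENNReal

/-- If `L^1(μ)` has a dense set with fewer than `𝔥` elements and the dual ball of `X` is weak*
sequentially compact, then so is the dual ball of `L^p(μ, X)` for every `1 ≤ p < ∞`. -/
theorem result (X : Type) [NormedAddCommGroup X] [NormedSpace ℝ X] [CompleteSpace X]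
    (hX : WStarSeqCompact X)
    (Ω : Type) [MeasurableSpace Ω] (μ : Measure Ω) [IsProbabilityMeasure μ]
    (S : Set (Lp ℝ 1 μ)) (hS : Dense S) (hcard : #S < distributivityNumber)
    (p : ℝ≥0∞) [Fact (1 ≤ p)] (hp : p ≠ ⊤) :
    WStarSeqCompact (Lp X p μ) :=
  small_main hp S hS hcard hX

end Pool.Agent.Results.MP_33144e_an.SmallTypeMeasure
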